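import Mathlib

namespace Pool.Agent.Results.MP_d52620_an.Dihedral

open MeasureTheory DihedralGroup
open scoped Pointwise symmDiff

/-- Amenability of a discrete group (Følner condition). -/
def Amenable (G : Type) [Group G] : Prop :=
  ∀ ε : ℝ, 0 < ε → ∀ K : Set G, K.Finite → ∃ F : Set G, F.Finite ∧ F.Nonempty ∧
    ∀ g ∈ K, (((g • F) ∆ F).ncard : ℝ) ≤ ε * F.ncard

variable {G M : Type} [Group G] [MetricSpace M] [MulAction G M]

/-- Continuous real cocycles. -/
def IsCocycle (c : G → M → ℝ) : Prop :=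
  (∀ g, Continuous (c g)) ∧ ∀ g h x, c (g * h) x = c g (h • x) + c h x

/-- `c` lies in the closure of the coboundaries for the norm given by `S`. -/
def InClosureB (S : Finset G) (c : G → M → ℝ) : Prop :=
  ∀ ε : ℝ, 0 < ε → ∃ u : M → ℝ, Continuous u ∧ ∀ s ∈ S, ∀ x, |c s x - (u (s • x) - u x)| ≤ ε

/-- `ρ_μ(c) = 0` for all invariant Borel probability measures. -/
def InO [MeasurableSpace M] (c : G → M → ℝ) : Prop :=
  ∀ μ : Measure M, IsProbabilityMeasure μ → (∀ g : G, μ.map (fun x => g • x) = μ) →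
    ∀ g, ∫ x, c g x ∂μ = 0

/-- the two-point space -/
abbrev X : Type := ({1, -1} : Set ℝ)

/-- the action by signs -/
instance : MulAction (DihedralGroup 0) X where
  smul g x := match g with
    | r _ => x
    | sr _ => ⟨-x.1, by rcases x.2 with h | h <;> simp [show x.1 = _ from h]⟩
  one_smul _ := rfl
  mul_smul g h x := by
    cases g <;> cases h <;> first | rfl | exact Subtype.ext (neg_neg _).symm

/-- Følner sets -/
def box (a b : ℤ) : Set (DihedralGroup 0) :=
  (fun i : ℤ => r i) '' Set.Icc a b ∪ (fun i : ℤ => sr i) '' Set.Icc a b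

lemma box_fin (a b : ℤ) : (box a b).Finite :=
  ((Set.finite_Icc _ _).image _).union ((Set.finite_Icc _ _).image _)

lemma box_card (a b : ℤ) : (box a b).ncard = 2 * (b + 1 - a).toNat := by
  rw [box, Set.ncard_union_eq _ ((Set.finite_Icc _ _).image _) ((Set.finite_Icc _ _).image _),
    Set.ncard_image_of_injective (f := fun i : ℤ => (r i : DihedralGroup 0)) _ fun _ _ h => r.inj h,
    Set.ncard_image_of_injective (f := fun i : ℤ => (sr i : DihedralGroup 0)) _
      fun _ _ h => sr.inj h, ← Finset.coe_Icc, Set.ncard_coe_finset,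
    Int.card_Icc, two_mul]
  rw [Set.disjoint_left]
  rintro _ ⟨i, -, rfl⟩ ⟨j, -, h⟩
  cases h

/-- the index -/
def idx : DihedralGroup 0 → ℤ
  | r i => i
  | sr i => i

/-- the cocycle -/
def c (g : DihedralGroup 0) (x : X) : ℝ := idx g * x.1

lemma mem_box {a b : ℤ} {g : DihedralGroup 0} : g ∈ box a b ↔ a ≤ idx g ∧ idx g ≤ b := by
  constructor
  · rintro (⟨i, h, rfl⟩ | ⟨i, h, rfl⟩) <;> exact h
  · intro h
    cases g
    · exact Or.inl ⟨_, h, rfl⟩
    · exact Or.inr ⟨_, h, rfl⟩

lemma idx_mul (g h : DihedralGroup 0) : idx (g * h) = idx h + idx g ∨ idx (g * h) = idx h - idx g := by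
  cases g <;> cases h
  · exact Or.inl (add_comm _ _)
  · exact Or.inr rfl
  · exact Or.inl (add_comm _ _)
  · exact Or.inr rfl

lemma amenable : Amenable (DihedralGroup 0) := by
  intro ε hε K hK
  obtain ⟨R, hR⟩ := (hK.image fun g => (idx g⁻¹).natAbs).bddAbove
  obtain ⟨N, hN⟩ := exists_nat_gt (2 * (2 * R + 1) / ε)
  refine ⟨box 0 N, box_fin _ _, ⟨1, mem_box.mpr ⟨le_rfl, Int.natCast_nonneg N⟩⟩, fun g hg => ?_⟩
  have h1 : (idx g⁻¹).natAbs ≤ R := hR ⟨g, hg, rfl⟩
  have h2 : (g • box 0 N) ∆ box 0 N ⊆ box (-R) R ∪ box (N - R) (N + R) := by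
    intro x hx
    simp only [Set.mem_symmDiff, Set.mem_smul_set_iff_inv_smul_mem, smul_eq_mul, mem_box,
      Set.mem_union] at hx ⊢
    have := idx_mul g⁻¹ x
    omega
  have h3 := (Set.ncard_le_ncard h2 ((box_fin _ _).union (box_fin _ _))).trans
    (Set.ncard_union_le _ _)
  rw [box_card, box_card] at h3
  have h4 : ((g • box 0 N) ∆ box 0 N).ncard ≤ 4 * (2 * R + 1) := by omega
  have h5 : (box 0 N).ncard = 2 * (N + 1) := by rw [box_card]; omega
  rw [h5]
  rw [div_lt_iff₀ hε] at hN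
  have h6 : (((g • box 0 N) ∆ box 0 N).ncard : ℝ) ≤ 4 * (2 * R + 1) := by exact_mod_cast h4
  push_cast
  nlinarith

theorem result : ¬ ∀ (G M : Type) [Group G] [MetricSpace M] [CompactSpace M] [MeasurableSpace M]
    [BorelSpace M] [MulAction G M] [ContinuousConstSMul G M] (S : Finset G),
    Subgroup.closure (S : Set G) = ⊤ → (∀ s ∈ S, s⁻¹ ∈ S) → (1 : G) ∉ S → Amenable G →
    ∀ c : G → M → ℝ, IsCocycle c → InO c → InClosureB S c := by
  intro h
  have : Finite X := (Set.toFinite _).to_subtype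
  have : ContinuousConstSMul (DihedralGroup 0) X := ⟨fun _ => continuous_of_discreteTopology⟩
  have h1 := h (DihedralGroup 0) X {r 1, r (-1), sr 0} ?_ (by decide) (by decide) amenable c
    ⟨fun _ => continuous_of_discreteTopology, ?_⟩ ?_
  · obtain ⟨u, -, hu⟩ := h1 (1 / 2) (by norm_num)
    have := hu (r 1) (by simp) ⟨1, by simp⟩
    have e : (r 1 : DihedralGroup 0) • (⟨1, by simp⟩ : X) = ⟨1, by simp⟩ := rfl
    have e2 : c (r 1) ⟨1, by simp⟩ = ((1 : ℤ) : ℝ) * 1 := rfl
    rw [e, e2] at this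
    norm_num at this
  · rw [eq_top_iff]
    have h2 : ∀ i : ℤ, (r i : DihedralGroup 0) ∈ Subgroup.closure
        (({r 1, r (-1), sr 0} : Finset (DihedralGroup 0)) : Set (DihedralGroup 0)) := by
      intro i
      have := zpow_mem (Subgroup.subset_closure (k := (({r 1, r (-1), sr 0} :
        Finset (DihedralGroup 0)) : Set (DihedralGroup 0))) (show r 1 ∈ _ by simp)) i
      rwa [r_one_zpow] at this
    rintro (i | i) -
    · exact h2 i
    · have := mul_mem (Subgroup.subset_closure (k := (({r 1, r (-1), sr 0} :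
        Finset (DihedralGroup 0)) : Set (DihedralGroup 0))) (show sr 0 ∈ _ by simp)) (h2 i)
      rwa [sr_mul_r, zero_add] at this
  · have e1 : ∀ i j : ℤ, ∀ x : ℝ, ((i + j : ℤ) : ℝ) * x = i * x + j * x := by
      intro i j x; push_cast; ring
    have e2 : ∀ i j : ℤ, ∀ x : ℝ, ((j - i : ℤ) : ℝ) * x = i * -x + j * x := by
      intro i j x; push_cast; ring
    rintro (i | i) (j | j) x
    exacts [e1 i j x, e2 i j x, e1 i j x, e2 i j x]
  · intro μ _ hμ g
    have h2 : ∫ x, c g x ∂μ = ∫ x, c g ((sr 0 : DihedralGroup 0) • x) ∂μ := by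
      conv_lhs => rw [← hμ (sr 0)]
      exact integral_map (measurable_of_finite _).aemeasurable
        (measurable_of_finite _).aestronglyMeasurable
    have h3 : ∀ x, c g ((sr 0 : DihedralGroup 0) • x) = -c g x := by
      intro x
      exact mul_neg _ _
    simp only [h3, integral_neg] at h2
    linarith

end Pool.Agent.Results.MP_d52620_an.Dihedral
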